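import Pool.Agent.H547_g.Ob
import Pool.Agent.Results.MP_90e98f_ag.ProductsOfFermatVarieties

/-!
# The generalized Bloch conjecture for varieties dominated by products of Fermat varieties

Let `𝒞` be the category of the Chow motives over the complex numbers, with coefficients in the field `K`
of the `M`-th roots of unity, and let `L` be the Lefschetz motive. The Chow group of `i`-dimensional
cycles of a motive `Y` is `Hom(L ^ i, Y)`. The motive of the Fermat variety `X` of degree `M` and
dimension `n` is a direct sum of powers of `L` and of the motives of rank one `V(s)`, indexed by the lists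
`s` of `n + 2` nonzero residues modulo `M` with sum zero, on which the roots of unity act by the
characters in `s`. The Hodge type of `V(s)` and of its conjugates `V(t * s)` is known (Griffiths, Katz,
Ogus, Shioda).

**Theorem.** Let `M` be one of `16, 20, 22, 24, 30, 36, 42`.

1. If all conjugates of the line `V(s_1) ⊗ ... ⊗ V(s_r)`, of degree `i`, have Hodge types `(a, b)` with
`a, b ≥ ν` then the Chow motive `V(s_1) ⊗ ... ⊗ V(s_r)` is isomorphic to
`L ^ ν ⊗ V(e_1) ⊗ ... ⊗ V(e_w)`, where `w = i - 2 ν` and the `V(e_j)` are lines in the motive `h^1` of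
the Fermat curve of degree `M`.

2. Let `Y` be a motive which is a direct summand of a finite direct sum of powers of `L` and of products
`L ^ k ⊗ V(s_1) ⊗ ... ⊗ V(s_r)` of Hodge coniveau at least `c`. Then all numerically trivial cycles (in
particular the homologically trivial ones) of dimension `i < c` on `Y` are rationally trivial.

Let `Y` be a smooth projective variety which is dominated by a product of Fermat varieties of degrees
dividing one of the seven numbers `M` (that is of the degrees
`3, ..., 12, 14, 15, 16, 18, 20, 21, 22, 24, 30, 36, 42`), of any dimensions, for example a resolution of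
a quotient of such a product by a finite group. If `Y` has Hodge coniveau at least `c` then its motive is
as in part 2: it is a direct summand of a direct sum of lines, which have local endomorphism rings
(Kimura), so it is a direct sum of lines, and with each line its conjugates are summands of the motive of
`Y`. So *the generalized Bloch conjecture holds for `Y`*: all homologically trivial cycles of dimension
`i < c` on `Y` are torsion.

*The hypotheses in Lean.* The structure `FermatMotives` lists the known facts on the motives `V(s)`. They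
are direct summands of motives of products of curves (Shioda, Katsura), so they are finite-dimensional in
the sense of Kimura, and an isomorphism of homological motives between `V(s)` and `L ^ k` lifts to Chow
motives. This gives `surface` (Lefschetz) and `standard` (Aoki, Shioda). The field `join` is the inductive
structure of Fermat varieties, and `effective` says that there are no cycles of negative dimension.

The proof. The combinatorial theorem of `ProductsOfFermatVarieties` gives characters `e_j` of the Fermat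
curve such that the union of the `s_j` and the `- e_j` is in the closure of the characters of Fermat
surfaces and of the standard characters. This gives an equation between the classes of the motives in the
monoid of the isomorphism classes, in which the class of `L` is invertible and `V(e) ⊗ V(- e) = L`.
-/

set_option autoImplicit false

namespace Pool.Agent.Results.MP_13bc1c_ag.FermatTypeMotives

open CategoryTheory MonoidalCategory Pool.Agent.H916R2 Pool.Agent.H547_g

universe v u

section defs

/-- The seven degrees. -/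
def degrees : List ℕ := [16, 20, 22, 24, 30, 36, 42]

/-- A character of degree `M`: a nonempty multiset `s` of nonzero residues modulo `M` with sum zero. It
gives the line `V(s)` of the Fermat variety of degree `M` and dimension `|s| - 2`. -/
def IsCharacter (M : ℕ) (s : Multiset (ZMod M)) : Prop := s ≠ 0 ∧ (0 : ZMod M) ∉ s ∧ s.sum = 0

/-- The Hodge types `(a, b)` of all conjugates of the product of the lines `V(s)`, `s ∈ S`, satisfy
`a, b ≥ ν`: for every unit `t` modulo `M` the representatives in `{1, ..., M - 1}` of the residues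
`t * a`, `a ∈ s ∈ S`, have sum at least `M * (ν + |S|)`. -/
def HodgeConiveau (M ν : ℕ) (S : List (Multiset (ZMod M))) : Prop :=
  ∀ t : (ZMod M)ˣ, M * (ν + S.length) ≤
    (S.map fun s => (s.map fun a => ((t : ZMod M) * a).val).sum).sum

/-- The Lefschetz motive `L` and the lines `V(s)` of Fermat varieties of degree `M` in the category `𝒞` of
Chow motives. The fields are known theorems. -/
structure FermatMotives (M : ℕ) (𝒞 : Type u) [Category.{v} 𝒞] [Preadditive 𝒞]
    [MonoidalCategory 𝒞] where
  /-- the Lefschetz motive -/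
  L : 𝒞
  /-- its dual -/
  T : 𝒞
  dual : Nonempty (L ⊗ T ≅ 𝟙_ 𝒞)
  /-- the lines -/
  V : Multiset (ZMod M) → 𝒞
  /-- Fermat varieties of dimension zero are unions of points. -/
  pair : ∀ a : ZMod M, a ≠ 0 → Nonempty (V {a, -a} ≅ 𝟙_ 𝒞)
  /-- The inductive structure of Fermat varieties (Shioda, Katsura). -/
  join : ∀ s t : Multiset (ZMod M), IsCharacter M s → IsCharacter M t →
    Nonempty (V (s + t) ≅ L ⊗ (V s ⊗ V t))
  /-- The theorem of Lefschetz for Fermat surfaces. -/
  surface : ∀ s : Multiset (ZMod M), SurfaceCharacter M s → Nonempty (V s ≅ L)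
  /-- The standard cycles (Aoki, Shioda). -/
  standard : ∀ (q : ℕ) (a : ZMod M), q.Prime → q ≠ 2 → q ∣ M → (q : ZMod M) * a ≠ 0 →
    Nonempty (V (-((q : ZMod M) * a) ::ₘ
      (Multiset.range q).map fun i : ℕ => a + (i : ZMod M) * ((M / q : ℕ) : ZMod M)) ≅
        pow L ((q - 1) / 2))
  /-- The standard cycles for the prime two: these are also characters of Fermat surfaces. -/
  standardTwo : ∀ a : ZMod M, 2 ∣ M → 2 * a ≠ 0 →
    Nonempty (V {a, a + ((M / 2 : ℕ) : ZMod M), -(2 * a), ((M / 2 : ℕ) : ZMod M)} ≅ L)
  /-- The Chow groups of a point. -/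
  point : ∀ i k : ℕ, i ≠ k → ∀ z : pow L i ⟶ pow L k, z = 0
  /-- The products of curves have no cycles of negative dimension `i - ν`. -/
  effective : ∀ (i ν : ℕ) (E : List (Multiset (ZMod M))), i < ν →
    (∀ e ∈ E, IsCharacter M e ∧ Multiset.card e = 3) →
      ∀ z : pow L i ⟶ pow L ν ⊗ tens (E.map V), z = 0

variable {M : ℕ} {𝒞 : Type u} [Category.{v} 𝒞] [Preadditive 𝒞] [MonoidalCategory 𝒞]

/-- The motive `Y` is of Fermat type of level `M`, of Hodge coniveau at least `c` apart from powers of
`L`: it is a direct summand of a finite direct sum of powers of `L` and of products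
`L ^ k ⊗ V(s_1) ⊗ ... ⊗ V(s_r)` for which `V(s_1) ⊗ ... ⊗ V(s_r)` has Hodge coniveau at least `ν`,
`c ≤ k + ν`. -/
def OfType (D : FermatMotives M 𝒞) (c : ℕ) (Y : 𝒞) : Prop :=
  ∃ (ι : Type) (_ : Fintype ι) (A : ι → 𝒞) (π : ∀ j, Y ⟶ A j) (κ : ∀ j, A j ⟶ Y),
    𝟙 Y = ∑ j, π j ≫ κ j ∧
      ∀ j, (∃ k, A j = pow D.L k) ∨
        ∃ (k ν : ℕ) (S : List (Multiset (ZMod M))), (∀ s ∈ S, IsCharacter M s) ∧
          HodgeConiveau M ν S ∧ c ≤ k + ν ∧ A j = pow D.L k ⊗ tens (S.map D.V)

/-- The cycle `z` of dimension `i` on `Y` is numerically trivial: its composition with every morphism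
`Y ⟶ L ^ i` is zero. -/
def NumTrivial (D : FermatMotives M 𝒞) {i : ℕ} {Y : 𝒞} (z : pow D.L i ⟶ Y) : Prop :=
  ∀ f : Y ⟶ pow D.L i, z ≫ f = 0

end defs

section proof

variable {M : ℕ}

lemma gen_sum [NeZero M] {s : Multiset (ZMod M)} (h : Generated M (SurfaceCharacter M) s) :
    s.sum = 0 := by
  induction h with
  | ofBase s hs => exact hs.1.2.2.1
  | pair a ha => simp
  | standard p hp hp2 hpm a ha =>
    obtain ⟨k, hk⟩ := hp.odd_of_ne_two hp2
    rw [Multiset.sum_cons]
    have h1 : ((Multiset.range p).map fun i : ℕ =>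
        a + (i : ZMod M) * ((M / p : ℕ) : ZMod M)).sum =
        ∑ i ∈ Finset.range p, (a + (i : ZMod M) * ((M / p : ℕ) : ZMod M)) := rfl
    rw [h1, Finset.sum_add_distrib, Finset.sum_const, Finset.card_range, ← Finset.sum_mul,
      nsmul_eq_mul]
    have h2 : (∑ i ∈ Finset.range p, (i : ZMod M)) = ((k * p : ℕ) : ZMod M) := by
      rw [← Nat.cast_sum]
      congr 1
      have h3 := Finset.sum_range_id_mul_two p
      have h4 : p - 1 = 2 * k := by omega
      rw [h4] at h3
      have h5 : (∑ i ∈ Finset.range p, i) * 2 = (k * p) * 2 := by rw [h3]; ring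
      exact Nat.eq_of_mul_eq_mul_right (by norm_num) h5
    have h6 : ((k * p : ℕ) : ZMod M) * ((M / p : ℕ) : ZMod M) = 0 := by
      rw [← Nat.cast_mul, mul_assoc, Nat.mul_div_cancel' hpm, ZMod.natCast_eq_zero_iff]
      exact Dvd.intro_left k rfl
    rw [h2, h6]
    ring
  | standardTwo hm a ha =>
    have h2 : (2 : ZMod M) * ((M / 2 : ℕ) : ZMod M) = 0 := by
      have : ((2 * (M / 2) : ℕ) : ZMod M) = 0 := by rw [Nat.mul_div_cancel' hm]; simp
      simpa using this
    simp only [Multiset.insert_eq_cons, Multiset.sum_cons, Multiset.sum_singleton]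
    linear_combination h2
  | join s t _ _ ihs iht => rw [Multiset.sum_add, ihs, iht, add_zero]
  | cancel a s _ ih =>
    rw [Multiset.sum_cons, Multiset.sum_cons] at ih
    linear_combination ih

variable {𝒞 : Type u} [Category.{v} 𝒞] [Preadditive 𝒞] [MonoidalCategory 𝒞] [BraidedCategory 𝒞]

open scoped Classical in
/-- the classes of the normalised lines -/
noncomputable def w (D : FermatMotives M 𝒞) (s : Multiset (ZMod M)) : Ob 𝒞 :=
  if s = 0 then 1 else ob D.L * ob (D.V s)

lemma w_zero (D : FermatMotives M 𝒞) : w D 0 = 1 := by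
  unfold w
  rw [if_pos rfl]

lemma w_ne (D : FermatMotives M 𝒞) {s : Multiset (ZMod M)} (h : s ≠ 0) :
    w D s = ob D.L * ob (D.V s) := by
  unfold w
  rw [if_neg h]

lemma w_add (D : FermatMotives M 𝒞) {s t : Multiset (ZMod M)} (hs : (0 : ZMod M) ∉ s)
    (hs' : s.sum = 0) (ht : (0 : ZMod M) ∉ t) (ht' : t.sum = 0) :
    w D (s + t) = w D s * w D t := by
  by_cases h1 : s = 0
  · rw [h1, zero_add, w_zero, one_mul]
  by_cases h2 : t = 0
  · rw [h2, add_zero, w_zero, mul_one]
  have h3 : s + t ≠ 0 := by
    intro h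
    rw [← Multiset.card_eq_zero, Multiset.card_add] at h
    rw [← Multiset.card_eq_zero] at h1
    omega
  rw [w_ne D h1, w_ne D h2, w_ne D h3]
  have h4 := ob_eq.mpr (D.join s t ⟨h1, hs, hs'⟩ ⟨h2, ht, ht'⟩)
  rw [h4, ob_tensor, ob_tensor, mul_mul_mul_comm, mul_assoc]

lemma w_pair (D : FermatMotives M 𝒞) {a : ZMod M} (ha : a ≠ 0) : w D {a, -a} = ob D.L := by
  rw [w_ne D (by simp), ob_eq.mpr (D.pair a ha), ob_unit, mul_one]

lemma isUnit_L (D : FermatMotives M 𝒞) : IsUnit (ob D.L) := by
  have h := ob_eq.mpr D.dual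
  rw [ob_tensor, ob_unit] at h
  exact IsUnit.of_mul_eq_one _ h

lemma base_good {s : Multiset (ZMod M)} (h : SurfaceCharacter M s) :
    (0 : ZMod M) ∉ s ∧ Even (Multiset.card s) := ⟨h.1.1, h.1.2.1⟩

/-- **Members of the closure are powers of the Lefschetz motive.** -/
lemma w_gen [NeZero M] (D : FermatMotives M 𝒞) {s : Multiset (ZMod M)}
    (h : Generated M (SurfaceCharacter M) s) : w D s = ob D.L ^ (Multiset.card s / 2) := by
  induction h with
  | ofBase s hs =>
    have h1 : s ≠ 0 := by
      rintro rfl
      have := hs.2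
      simp at this
    rw [w_ne D h1, ob_eq.mpr (D.surface s hs), hs.2, ← sq]
  | pair a ha => rw [w_pair D ha]; simp
  | standard p hp hp2 hpm a ha =>
    obtain ⟨k, hk⟩ := hp.odd_of_ne_two hp2
    rw [w_ne D (Multiset.cons_ne_zero), ob_eq.mpr (D.standard p a hp hp2 hpm ha), ob_pow,
      Multiset.card_cons, Multiset.card_map, Multiset.card_range, ← pow_succ']
    congr 1
    omega
  | standardTwo hm a ha =>
    rw [w_ne D (by simp), ob_eq.mpr (D.standardTwo a hm ha)]
    simp [sq]
  | join s t hs ht ihs iht =>
    have g1 := Generated.good (fun s hs => base_good hs) hs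
    have g2 := Generated.good (fun s hs => base_good hs) ht
    rw [w_add D g1.1 (gen_sum hs) g2.1 (gen_sum ht), ihs, iht, ← pow_add, Multiset.card_add]
    congr 1
    obtain ⟨a, ha⟩ := g1.2
    obtain ⟨b, hb⟩ := g2.2
    omega
  | cancel a s h ih =>
    have g1 := Generated.good (fun s hs => base_good hs) h
    have hsum := gen_sum h
    have ha : a ≠ 0 := fun h' => g1.1 (by simp [h'])
    have hs0 : (0 : ZMod M) ∉ s := fun h' => g1.1 (by simp [h'])
    have hss : s.sum = 0 := by
      rw [Multiset.sum_cons, Multiset.sum_cons] at hsum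
      linear_combination hsum
    have h1 : a ::ₘ -a ::ₘ s = {a, -a} + s := by
      rw [Multiset.insert_eq_cons, Multiset.cons_add, Multiset.singleton_add]
    have h2 : (0 : ZMod M) ∉ ({a, -a} : Multiset (ZMod M)) := by
      simp only [Multiset.insert_eq_cons, Multiset.mem_cons, Multiset.mem_singleton, not_or]
      exact ⟨Ne.symm ha, Ne.symm (neg_ne_zero.mpr ha)⟩
    rw [h1, w_add D h2 (by simp) hs0 hss, w_pair D ha, Multiset.card_add] at ih
    have h3 : (Multiset.card ({a, -a} : Multiset (ZMod M)) + Multiset.card s) / 2 =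
        Multiset.card s / 2 + 1 := by
      simp only [Multiset.insert_eq_cons, Multiset.card_cons, Multiset.card_singleton]
      omega
    rw [h3, pow_succ'] at ih
    exact (isUnit_L D).mul_left_cancel ih

/-- a multiset and its negative -/
lemma w_add_neg [NeZero M] (D : FermatMotives M 𝒞) (s : Multiset (ZMod M))
    (h0 : (0 : ZMod M) ∉ s) (hs : s.sum = 0) :
    w D s * w D (s.map Neg.neg) = ob D.L ^ (Multiset.card s) := by
  have h1 : (0 : ZMod M) ∉ s.map Neg.neg := by
    intro h
    obtain ⟨b, hb, hb0⟩ := Multiset.mem_map.mp h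
    rw [neg_eq_zero] at hb0
    exact h0 (hb0 ▸ hb)
  rw [← w_add D h0 hs h1 (by rw [Multiset.sum_map_neg', hs, neg_zero])]
  by_cases hne : s = 0
  · rw [hne]
    simp [w_zero]
  · rw [w_gen D (generated_add_neg s h0 hne), Multiset.card_add, Multiset.card_map]
    congr 1
    omega

/-- products of lines -/
lemma w_join [NeZero M] (D : FermatMotives M 𝒞) (l : List (Multiset (ZMod M)))
    (h : ∀ s ∈ l, IsCharacter M s) :
    w D (l : Multiset (Multiset (ZMod M))).join = ob D.L ^ l.length * (l.map fun s => ob (D.V s)).prod ∧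
      (0 : ZMod M) ∉ (l : Multiset (Multiset (ZMod M))).join ∧
      (l : Multiset (Multiset (ZMod M))).join.sum = 0 := by
  induction l with
  | nil =>
    refine ⟨?_, by simp, by simp⟩
    simp [w_zero]
  | cons s l ih =>
    obtain ⟨h1, h2, h3⟩ := ih fun x hx => h x (List.mem_cons_of_mem _ hx)
    have hs := h s List.mem_cons_self
    rw [← Multiset.cons_coe, Multiset.join_cons]
    refine ⟨?_, ?_, ?_⟩
    · rw [w_add D hs.2.1 hs.2.2 h2 h3, h1, w_ne D hs.1, List.map_cons, List.prod_cons,
        List.length_cons, pow_succ']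
      rw [mul_mul_mul_comm]
    · rw [Multiset.mem_add, not_or]
      exact ⟨hs.2.1, h2⟩
    · rw [Multiset.sum_add, hs.2.2, h3, add_zero]

lemma card_ge_two {s : Multiset (ZMod M)} (h : IsCharacter M s) : 2 ≤ Multiset.card s := by
  by_contra h1
  push Not at h1
  have h2 : Multiset.card s ≠ 0 := fun h' => h.1 (Multiset.card_eq_zero.mp h')
  obtain ⟨a, ha⟩ := Multiset.card_eq_one.mp (by omega : Multiset.card s = 1)
  have h3 := h.2.2
  rw [ha, Multiset.sum_singleton] at h3
  exact h.2.1 (by rw [ha, h3]; simp)

/-- **The structure of the lines.** -/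
theorem structure_of (hM : M ∈ degrees) (D : FermatMotives M 𝒞) (ν : ℕ)
    (S : List (Multiset (ZMod M))) (hS : ∀ s ∈ S, IsCharacter M s) (hc : HodgeConiveau M ν S) :
    ∃ E : List (Multiset (ZMod M)), (∀ e ∈ E, IsCharacter M e ∧ Multiset.card e = 3) ∧
      E.length + 2 * ν + 2 * S.length = (S.map fun s => Multiset.card s).sum ∧
      ob (tens (S.map D.V)) = ob D.L ^ ν * ob (tens (E.map D.V)) := by
  have hM0 : NeZero M := ⟨by
    rintro rfl
    simp [degrees] at hM⟩
  obtain ⟨E, hE1, hE2, hE3⟩ := (MP_90e98f_ag.ProductsOfFermatVarieties.result M hM).1 ν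
    (S : Multiset (Multiset (ZMod M))) (fun s hs => (hS s (Multiset.mem_coe.mp hs)).2) (by
      intro t
      have := hc t
      rw [Multiset.coe_card, Multiset.map_coe, Multiset.sum_coe]
      exact this)
  induction E using Quotient.inductionOn with
  | h E =>
  rw [Multiset.quot_mk_to_coe] at hE1 hE2 hE3
  have hE1' : ∀ e ∈ E, IsCharacter M e ∧ Multiset.card e = 3 := by
    intro e he
    have h1 := hE1 e (Multiset.mem_coe.mpr he)
    refine ⟨⟨?_, h1.1.1, h1.1.2⟩, h1.2⟩
    rintro rfl
    have := h1.2
    simp at this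
  have hcards : 2 * S.length ≤ (S.map fun s => Multiset.card s).sum := by
    clear hc hE2 hE3
    induction S with
    | nil => simp
    | cons s S ih =>
      have h1 := ih fun x hx => hS x (List.mem_cons_of_mem _ hx)
      have h2 := card_ge_two (hS s List.mem_cons_self)
      rw [List.map_cons, List.sum_cons, List.length_cons]
      omega
  rw [Multiset.coe_card, Multiset.coe_card, Multiset.map_coe, Multiset.sum_coe] at hE2
  have hlen : E.length + 2 * ν + 2 * S.length = (S.map fun s => Multiset.card s).sum := by omega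
  refine ⟨E, hE1', hlen, ?_⟩
  obtain ⟨a1, a2, a3⟩ := w_join D S hS
  obtain ⟨b1, b2, b3⟩ := w_join D E fun e he => (hE1' e he).1
  set s : Multiset (ZMod M) := (S : Multiset (Multiset (ZMod M))).join with hs
  set e : Multiset (ZMod M) := (E : Multiset (Multiset (ZMod M))).join with he
  have hcs : Multiset.card s = (S.map fun s => Multiset.card s).sum := by
    rw [hs, Multiset.card_join, Multiset.map_coe, Multiset.sum_coe]
  have hce : Multiset.card e = 3 * E.length := by
    rw [he, Multiset.card_join, Multiset.map_coe, Multiset.sum_coe]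
    clear hE2 hE3 hlen b1 b2 b3 he hE1
    induction E with
    | nil => simp
    | cons x E ih =>
      rw [List.map_cons, List.sum_cons, ih fun y hy => hE1' y (List.mem_cons_of_mem _ hy),
        (hE1' x List.mem_cons_self).2, List.length_cons]
      ring
  have hen : (0 : ZMod M) ∉ e.map Neg.neg := by
    intro h
    obtain ⟨b, hb, hb0⟩ := Multiset.mem_map.mp h
    rw [neg_eq_zero] at hb0
    exact b2 (hb0 ▸ hb)
  have h1 := w_gen D hE3
  rw [w_add D a2 a3 hen (by rw [Multiset.sum_map_neg', b3, neg_zero]), Multiset.card_add,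
    Multiset.card_map, hcs, hce] at h1
  have h2 := w_add_neg D e b2 b3
  rw [hce] at h2
  -- multiply by the class of `e`
  have h3 : w D s * ob D.L ^ (3 * E.length) =
      ob D.L ^ (((S.map fun s => Multiset.card s).sum + 3 * E.length) / 2) * w D e := by
    rw [← h1, ← h2]
    rw [mul_assoc, mul_comm (w D e)]
  rw [a1, b1] at h3
  rw [ob_tens, ob_tens, List.map_map, List.map_map]
  have h4 : ((S.map fun s => Multiset.card s).sum + 3 * E.length) / 2 + E.length =
      ν + (S.length + 3 * E.length) := by omega
  have h5 : (ob D.L) ^ (S.length + 3 * E.length) * (S.map fun s => ob (D.V s)).prod =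
      (ob D.L) ^ (S.length + 3 * E.length) *
        (ob D.L ^ ν * (E.map fun s => ob (D.V s)).prod) := by
    calc (ob D.L) ^ (S.length + 3 * E.length) * (S.map fun s => ob (D.V s)).prod =
        ob D.L ^ S.length * (S.map fun s => ob (D.V s)).prod * ob D.L ^ (3 * E.length) := by
          rw [pow_add, mul_assoc, mul_assoc, mul_comm (ob D.L ^ (3 * E.length))]
      _ = _ := by
          rw [h3, ← mul_assoc, ← mul_assoc, ← pow_add, ← pow_add, h4, add_comm ν]
  exact ((isUnit_L D).pow _).mul_left_cancel h5

omit [BraidedCategory 𝒞] in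
/-- isomorphic objects have the same zero cycles -/
lemma zero_of_ob {A B X : 𝒞} (h : ob A = ob B) (hB : ∀ z : X ⟶ B, z = 0) (z : X ⟶ A) : z = 0 := by
  obtain ⟨e⟩ := ob_eq.mp h
  have h1 : z = (z ≫ e.hom) ≫ e.inv := by simp
  rw [h1, hB (z ≫ e.hom), Limits.zero_comp]

theorem bloch (hM : M ∈ degrees) (D : FermatMotives M 𝒞) (c : ℕ) (Y : 𝒞) (hY : OfType D c Y)
    (i : ℕ) (hi : i < c) (z : pow D.L i ⟶ Y) (hz : NumTrivial D z) : z = 0 := by
  obtain ⟨ι, _, A, π, κ, hid, hA⟩ := hY
  rw [← Category.comp_id z, hid, Preadditive.comp_sum]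
  refine Finset.sum_eq_zero fun j _ => ?_
  rw [← Category.assoc]
  have h1 : z ≫ π j = 0 := by
    rcases hA j with ⟨k, hk⟩ | ⟨k, ν, S, hS, hcS, hck, hAj⟩
    · by_cases hik : i = k
      · subst hik
        have h2 := hz (π j ≫ eqToHom hk)
        rw [← Category.assoc] at h2
        have h3 : z ≫ π j = ((z ≫ π j) ≫ eqToHom hk) ≫ eqToHom hk.symm := by simp
        rw [h3, h2, Limits.zero_comp]
      · exact zero_of_ob (congrArg ob hk) (D.point i k hik) _
    · obtain ⟨E, hE1, _, hE3⟩ := structure_of hM D ν S hS hcS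
      refine zero_of_ob (B := pow D.L (k + ν) ⊗ tens (E.map D.V)) ?_
        (D.effective i (k + ν) E (by omega) hE1) _
      rw [hAj, ob_tensor, hE3, ob_tensor, ob_pow, ob_pow, pow_add, mul_assoc]
  rw [h1, Limits.zero_comp]

end proof

/-- **The generalized Bloch conjecture for motives of Fermat type.** -/
theorem result (M : ℕ) (hM : M ∈ degrees) {𝒞 : Type u} [Category.{v} 𝒞] [Preadditive 𝒞]
    [MonoidalCategory 𝒞] [BraidedCategory 𝒞] (D : FermatMotives M 𝒞) :
    (∀ (ν : ℕ) (S : List (Multiset (ZMod M))), (∀ s ∈ S, IsCharacter M s) →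
      HodgeConiveau M ν S → ∃ E : List (Multiset (ZMod M)),
        (∀ e ∈ E, IsCharacter M e ∧ Multiset.card e = 3) ∧
        E.length + 2 * ν + 2 * S.length = (S.map fun s => Multiset.card s).sum ∧
        Nonempty (tens (S.map D.V) ≅ pow D.L ν ⊗ tens (E.map D.V))) ∧
    (∀ (c : ℕ) (Y : 𝒞), OfType D c Y → ∀ i < c, ∀ z : pow D.L i ⟶ Y,
      NumTrivial D z → z = 0) := by
  refine ⟨fun ν S hS hc => ?_, fun c Y hY i hi z hz => bloch hM D c Y hY i hi z hz⟩
  obtain ⟨E, h1, h2, h3⟩ := structure_of hM D ν S hS hc
  refine ⟨E, h1, h2, ob_eq.mp ?_⟩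
  rw [h3, ob_tensor, ob_pow]

end Pool.Agent.Results.MP_13bc1c_ag.FermatTypeMotives
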