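import Pool.Agent.H802GC.Main

/-!
# The generalized Bloch conjecture for quotients of powers of curves (MP_13bc1c_ag)

The generalized Bloch conjecture for `c = 1`: if a smooth projective variety `Y` has no holomorphic
forms of positive degree then `A_0^hom(Y) = 0`, that is, all zero-cycles of degree zero on `Y` are
torsion.

We prove it for the varieties `Y`, of any dimension, which are dominated by quotients `X^n / Γ`
without holomorphic forms of positive degree, where `X` is a curve with an action of a finite group
`G` all of whose irreducible representations occurring in `H^1(X)` are real (for example `G` is a
product of symmetric groups, dihedral groups and other finite Coxeter groups, and `X` is any curve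
with an action of `G`), and `Γ` is any subgroup of the wreath product `G ≀ S_n`. Since all products
`C_1 × ⋯ × C_n` of quotients `C_j = X / H_j` are dominated by `X^n`, the theorem contains for example
all quotients of products of hyperelliptic curves by groups generated by hyperelliptic involutions
on factors and permutations of equal factors (`G = (ℤ/2)^r`, `X` a component of the fibre product of
the `C_j` over the projective line), and all varieties isogenous to a product of curves with such a
group `G`. The curve `X` is arbitrary: nothing is assumed on its Hodge structure.

## Outline of the proof

Let `e` be an invariant class of degree one on `X`. A zero-cycle `z` on `X` is `deg(z) e` plus the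
sum of its components, which are the images, under the elements of the group algebra given by the
matrix coefficients of the real representations `V`, of zero-cycles in the motives
`h^1(X)_V = Hom_G(V, h^1(X))`. By Kimura's theorem `Sym^(2 γ + 1) h^1(X)_V = 0`, where `γ` is the
multiplicity of `V` in `H^0(X, K_X)`, and because the projector of `h^1(X)_V` is symmetric (here it
is used that `V` is real), the sum over all perfect matchings of `2 γ + 2` points of the products of
its values is zero; multiplied with zero-cycles this gives (`relZ`, `relL`): the symmetrization of a
product of zero-cycles of type `V` on the factors of `X^n` over more than `γ` positions is zero. So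
products of zero-cycles of a given type `c` behave, as a module over the stabilizer of `c` in the
symmetric group, like the products of forms in `H^0(X, K_X)` (this is where invariant theory of the
general linear group enters, theorem `alt_sum`); if the invariants of `Γ` in the forms are zero, the
average over the stabilizer in `Γ` of the products of zero-cycles of type `c` is zero. On `Y` the
products and their translates under `Γ` have the same image. So only the multiples of the image of
`e × ⋯ × e` are left.
-/

open CategoryTheory AlgebraicGeometry

universe u v w

namespace Pool.Agent.Results.MP_13bc1c_ag.RealPowerQuotients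

open Pool.Agent.H914 Pool.Agent.H914.VarClass Pool.Agent.H914.VarClass.Obj Pool.Agent.W492.BB
  Pool.Agent.H802Voi Pool.Agent.H802GC

/-- Let `X` be a curve with an action `a` of the finite group `G`, all of whose irreducible
representations which occur in `H^1(X)` belong to a family `ρ` of pairwise non-isomorphic
orthogonal representations over the field `F` of characteristic zero; `γ V` is the multiplicity of
`V` in `H^0(X, K_X)`. Let `P = X^n`, let `Γ` be a subgroup of the wreath product `G ≀ S_n`, and let
`Y` be a smooth projective variety dominated by `P / Γ`. If there are no `Γ`-invariant holomorphic
forms of positive degree on `P` then all zero-cycles of degree zero on `Y` are zero in `CH_0(Y)`,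
the Chow group with coefficients in `F`. -/
theorem result {k : Type u} [Field k] {𝒱 : VarClass k} {F : Type w} [Field F] [CharZero F]
    (C : TheoryData.{u, v, w} 𝒱 F) [IsChowDeg C] {G : Type} [Group G] [Fintype G] [DecidableEq G]
    {Φ : Type} [Fintype Φ] {d : Φ → ℕ} {ρ : (V : Φ) → G → Matrix (Fin (d V)) (Fin (d V)) F}
    (hρ : IsOrthogonalFamily d ρ) {z : G → F} (hz : Covers d ρ z 0) {n : ℕ} {X P Y : 𝒱.Obj}
    {a : G → (X ⟶ X)} {γ : Φ → ℕ} (hX : IsCurveWithAction C X a hρ.pos ρ γ z)
    {t : Fin n → (P ⟶ X)} (hP : IsPowerOfCurve C t) {Γ : Finset (Wreath G n)}
    (hΓ : IsWreathSubgroup Γ) {b : C.A (P.prod Y)} (hY : IsDominatedBy C a t Γ b)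
    (h : NoForms ρ γ Γ) (α : C.A Y) (hα : C.Deg Y.dim α) (hdeg : DegreeZero C α) : α = 0 :=
  main_zero hρ hz hX hP hΓ hY h α hα hdeg

end Pool.Agent.Results.MP_13bc1c_ag.RealPowerQuotients
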